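import Mathlib

/-!
Construction of a convex body of revolution in three-space and a convex container, such that
the space of copies looks like the topologist's sine curve.
-/

namespace Pool.Agent.MP_f4a04c_gt.H1

open scoped RealInnerProductSpace

abbrev E := EuclideanSpace ℝ (Fin 3)

/-- chord radii of the circles -/
noncomputable def c (n : ℕ) : ℝ := (1 / 16) ^ n / 32

/-- heights of the cutting normals -/
noncomputable def s (n : ℕ) : ℝ := c n ^ 2 / 128

/-- cutting normals -/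
noncomputable def v (n : ℕ) : E :=
  !₂[1 - (c n / 4) ^ 2 / 2, √(1 - (1 - (c n / 4) ^ 2 / 2) ^ 2 - s n ^ 2), s n]

noncomputable def e0 : E := !₂[1, 0, 0]
noncomputable def e2 : E := !₂[0, 0, 1]
noncomputable def g1 : E := !₂[-(3 / 5), -(4 / 5), 0]
noncomputable def g2 : E := !₂[-(3 / 5), 4 / 5, 0]
noncomputable def g3 : E := !₂[4 / 5, 3 / 5, 0]
noncomputable def g4 : E := !₂[4 / 5, -(3 / 5), 0]

lemma inner_coord (x y : E) : ⟪x, y⟫ = x 0 * y 0 + x 1 * y 1 + x 2 * y 2 := by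
  simp [PiLp.inner_apply, Fin.sum_univ_three]
  ring

lemma norm_sq_coord (x : E) : ‖x‖ ^ 2 = x 0 ^ 2 + x 1 ^ 2 + x 2 ^ 2 := by
  rw [← real_inner_self_eq_norm_sq, inner_coord]; ring

lemma norm_eq_of_coord {x : E} {r : ℝ} (hr : 0 ≤ r) (h : x 0 ^ 2 + x 1 ^ 2 + x 2 ^ 2 = r ^ 2) :
    ‖x‖ = r := by
  have h1 := norm_sq_coord x
  rw [h] at h1
  exact (pow_left_inj₀ (norm_nonneg _) hr two_ne_zero).1 h1

lemma abs_coord_le (x : E) (i : Fin 3) : |x i| ≤ ‖x‖ := by
  have := EuclideanSpace.norm_eq x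
  simpa using PiLp.norm_apply_le x i

lemma c_pos (n : ℕ) : 0 < c n := by unfold c; positivity

lemma c_le (n : ℕ) : c n ≤ 1 / 32 := by
  unfold c
  have : ((1 : ℝ) / 16) ^ n ≤ 1 := pow_le_one₀ (by norm_num) (by norm_num)
  linarith

lemma c_anti {m n : ℕ} (h : m ≤ n) : c n ≤ c m := by
  unfold c
  have : ((1 : ℝ) / 16) ^ n ≤ (1 / 16) ^ m := pow_le_pow_of_le_one (by norm_num) (by norm_num) h
  linarith

lemma c_succ (n : ℕ) : c (n + 1) = c n / 16 := by
  unfold c; ring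

lemma c_lt {m n : ℕ} (h : m < n) : c n ≤ c m / 16 := by
  rw [← c_succ]; exact c_anti h

lemma s_pos (n : ℕ) : 0 < s n := by
  unfold s; have := c_pos n; positivity

lemma s_le (n : ℕ) : s n ≤ 1 / 1000 := by
  unfold s; have := c_pos n; have := c_le n; nlinarith

lemma rad_nonneg (n : ℕ) : 0 ≤ 1 - (1 - (c n / 4) ^ 2 / 2) ^ 2 - s n ^ 2 := by
  unfold s
  have h0 := c_pos n
  have h1 := c_le n
  have h2 : c n ^ 2 ≤ 1 / 1024 := by nlinarith
  have h3 : 0 < c n ^ 2 := by positivity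
  have : 1 - (1 - (c n / 4) ^ 2 / 2) ^ 2 - (c n ^ 2 / 128) ^ 2
      = c n ^ 2 * (1 / 16 - c n ^ 2 * (1 / 1024 + 1 / 16384)) := by ring
  rw [this]
  apply mul_nonneg h3.le
  nlinarith

lemma v0 (n : ℕ) : v n 0 = 1 - (c n / 4) ^ 2 / 2 := by simp [v]
lemma v1 (n : ℕ) : v n 1 = √(1 - (1 - (c n / 4) ^ 2 / 2) ^ 2 - s n ^ 2) := by simp [v]
lemma v2 (n : ℕ) : v n 2 = s n := by simp [v]

lemma v1_sq (n : ℕ) : v n 1 ^ 2 = 1 - (1 - (c n / 4) ^ 2 / 2) ^ 2 - s n ^ 2 := by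
  rw [v1, Real.sq_sqrt (rad_nonneg n)]

lemma v1_nonneg (n : ℕ) : 0 ≤ v n 1 := by rw [v1]; exact Real.sqrt_nonneg _

lemma norm_v (n : ℕ) : ‖v n‖ = 1 := by
  apply norm_eq_of_coord zero_le_one
  rw [v1_sq, v0, v2]; ring

lemma norm_v_sub (n : ℕ) : ‖v n - e0‖ = c n / 4 := by
  apply norm_eq_of_coord (by have := c_pos n; positivity)
  have h0 : (v n - e0) 0 = v n 0 - 1 := by simp [e0]
  have h1 : (v n - e0) 1 = v n 1 := by simp [e0]
  have h2 : (v n - e0) 2 = v n 2 := by simp [e0]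
  rw [h0, h1, h2, v1_sq, v0, v2]; ring

lemma v0_ge (n : ℕ) : 9 / 10 ≤ v n 0 := by
  rw [v0]; have := c_pos n; have := c_le n; nlinarith

lemma v1_le (n : ℕ) : v n 1 ≤ 1 / 10 := by
  have h := abs_coord_le (v n - e0) 1
  have h1 : (v n - e0) 1 = v n 1 := by simp [e0]
  rw [h1, norm_v_sub] at h
  have := c_le n
  have := le_abs_self (v n 1)
  linarith

lemma norm_e0 : ‖e0‖ = 1 := norm_eq_of_coord zero_le_one (by simp [e0])
lemma norm_e2 : ‖e2‖ = 1 := norm_eq_of_coord zero_le_one (by simp [e2])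
lemma norm_g1 : ‖g1‖ = 1 := norm_eq_of_coord zero_le_one (by simp [g1]; norm_num)
lemma norm_g2 : ‖g2‖ = 1 := norm_eq_of_coord zero_le_one (by simp [g2]; norm_num)
lemma norm_g3 : ‖g3‖ = 1 := norm_eq_of_coord zero_le_one (by simp [g3]; norm_num)
lemma norm_g4 : ‖g4‖ = 1 := norm_eq_of_coord zero_le_one (by simp [g4]; norm_num)

/-- The gap lemma: distances between circles avoid distances between normals. -/
lemma gap_aux {i j n m : ℕ} (hij : i < j) (hnm : n < m) {D D' : ℝ}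
    (h1 : |c i - c j| ≤ D) (h2 : D ≤ c i + c j)
    (h3 : |c n / 4 - c m / 4| ≤ D') (h4 : D' ≤ c n / 4 + c m / 4) :
    (c n + c m) / 8 ≤ |D - D'| := by
  have a1 := c_lt hij
  have a2 := c_lt hnm
  have b1 := le_abs_self (c i - c j)
  have b2 := le_abs_self (c n / 4 - c m / 4)
  have p1 := c_pos i
  have p2 := c_pos j
  have p3 := c_pos n
  have p4 := c_pos m
  rcases le_or_gt i n with h | h
  · have := c_anti h
    have := le_abs_self (D - D')
    linarith
  · have := c_lt h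
    have := neg_abs_le (D - D')
    linarith

lemma gap {i j n m : ℕ} (hij : i ≠ j) (hnm : n ≠ m) {D D' : ℝ}
    (h1 : |c i - c j| ≤ D) (h2 : D ≤ c i + c j)
    (h3 : |c n / 4 - c m / 4| ≤ D') (h4 : D' ≤ c n / 4 + c m / 4) :
    (c n + c m) / 8 ≤ |D - D'| := by
  rcases lt_or_gt_of_ne hij with a | a <;> rcases lt_or_gt_of_ne hnm with b | b
  · exact gap_aux a b h1 h2 h3 h4
  · rw [add_comm (c n)]
    exact gap_aux a b h1 h2 (by rwa [abs_sub_comm]) (by linarith)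
  · exact gap_aux a b (by rwa [abs_sub_comm]) (by linarith) h3 h4
  · rw [add_comm (c n)]
    exact gap_aux a b (by rwa [abs_sub_comm]) (by linarith) (by rwa [abs_sub_comm]) (by linarith)

/-- The generating set of the body. -/
def P : Set E :=
  {p | ‖p‖ ≤ 1 ∧ ((-(13 / 20) ≤ p 0 ∧ p 0 ≤ -(11 / 20)) ∨ (3 / 4 ≤ p 0 ∧ p 0 ≤ 17 / 20) ∨
    (∃ k, ‖p - e0‖ = c (2 * k)) ∨ (∃ k, ‖p + e0‖ = c (2 * k + 1)))}

/-- The half-spaces of the container. -/
def H : Set (E × ℝ) :=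
  {q | q = (g1, 1) ∨ q = (g2, 1) ∨ q = (g3, 1) ∨ q = (g4, 1) ∨ (∃ k, q = (v (2 * k), 1)) ∨
    (∃ k, q = (-v (2 * k + 1), 1 - s (2 * k + 1)))}

/-- The container. -/
def K : Set E := {y | ‖y‖ ≤ 2 ∧ ∀ q ∈ H, ⟪q.1, y⟫ ≤ q.2}

lemma K_closed : IsClosed K := by
  have : K = Metric.closedBall 0 2 ∩ ⋂ q ∈ H, {y : E | ⟪q.1, y⟫ ≤ q.2} := by
    ext y; simp [K]
  rw [this]
  refine Metric.isClosed_closedBall.inter (isClosed_biInter fun q _ => ?_)
  exact isClosed_le (by fun_prop) continuous_const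

lemma K_convex : Convex ℝ K := by
  have : K = Metric.closedBall 0 2 ∩ ⋂ q ∈ H, {y : E | ⟪q.1, y⟫ ≤ q.2} := by
    ext y; simp [K]
  rw [this]
  refine (convex_closedBall _ _).inter (convex_iInter₂ fun q _ => ?_)
  exact convex_halfSpace_le (innerₛₗ ℝ q.1).isLinear q.2

lemma K_compact : IsCompact K := by
  refine (isCompact_closedBall (0 : E) 2).of_isClosed_subset K_closed ?_
  intro y hy
  simpa using hy.1

lemma inner_le_one {u y : E} (hu : ‖u‖ = 1) (hy : ‖y‖ ≤ 1) : ⟪u, y⟫ ≤ 1 := by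
  have := real_inner_le_norm u y
  rw [hu] at this; linarith

lemma near_of_inner {u y : E} {r : ℝ} (hr : 0 < r) (hu : ‖u‖ = 1) (hy : ‖y‖ ≤ 1)
    (h : 1 - r ^ 2 / 2 < ⟪u, y⟫) : ‖y - u‖ < r := by
  have h1 := norm_sub_sq_real y u
  rw [hu, real_inner_comm] at h1
  have h2 : ‖y‖ ^ 2 ≤ 1 := by have := norm_nonneg y; nlinarith
  have h3 : ‖y - u‖ ^ 2 < r ^ 2 := by linarith
  exact lt_of_pow_lt_pow_left₀ 2 hr.le h3

lemma P_sum_aux {p q : E} {i j : ℕ} (hp : ‖p - e0‖ = c i) (hq : ‖q + e0‖ = c j) :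
    |c i - c j| ≤ ‖p + q‖ ∧ ‖p + q‖ ≤ c i + c j := by
  have h : p + q = (p - e0) - (-(q + e0)) := by abel
  constructor
  · rw [h, ← hp, ← hq, ← norm_neg (q + e0)]
    exact abs_norm_sub_norm_le _ _
  · rw [h, ← hp, ← hq, ← norm_neg (q + e0)]
    exact norm_sub_le _ _

lemma coord_of_sub {p : E} {r : ℝ} (h : ‖p - e0‖ = r) : 1 - r ≤ p 0 := by
  have h1 := abs_coord_le (p - e0) 0
  have h2 : (p - e0) 0 = p 0 - 1 := by simp [e0]
  rw [h2, h] at h1
  have := neg_abs_le (p 0 - 1)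
  linarith

lemma coord_of_add {p : E} {r : ℝ} (h : ‖p + e0‖ = r) : p 0 ≤ -1 + r := by
  have h1 := abs_coord_le (p + e0) 0
  have h2 : (p + e0) 0 = p 0 + 1 := by simp [e0]
  rw [h2, h] at h1
  have := le_abs_self (p 0 + 1)
  linarith

/-- Nearly antipodal points of the generating set lie on circles of different index. -/
lemma P_sum {p q : E} (hp : p ∈ P) (hq : q ∈ P) (h : ‖p + q‖ < 1 / 20) :
    ∃ i j, i ≠ j ∧ |c i - c j| ≤ ‖p + q‖ ∧ ‖p + q‖ ≤ c i + c j := by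
  have h0 := abs_coord_le (p + q) 0
  have h1 : (p + q) 0 = p 0 + q 0 := by simp
  rw [h1] at h0
  have h2 := le_abs_self (p 0 + q 0)
  have h3 := neg_abs_le (p 0 + q 0)
  obtain ⟨-, hp⟩ := hp
  obtain ⟨-, hq⟩ := hq
  rcases hp with hp | hp | ⟨i, hp⟩ | ⟨i, hp⟩ <;> rcases hq with hq | hq | ⟨j, hq⟩ | ⟨j, hq⟩
  · linarith [hp.2, hq.2]
  · linarith [hp.1, hq.1]
  · linarith [hp.1, coord_of_sub hq, c_le (2 * j)]
  · linarith [hp.2, coord_of_add hq, c_le (2 * j + 1)]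
  · linarith [hp.1, hq.1]
  · linarith [hp.1, hq.1]
  · linarith [hp.1, coord_of_sub hq, c_le (2 * j)]
  · linarith [hp.2, coord_of_add hq, c_le (2 * j + 1)]
  · linarith [hq.1, coord_of_sub hp, c_le (2 * i)]
  · linarith [hq.1, coord_of_sub hp, c_le (2 * i)]
  · linarith [coord_of_sub hq, c_le (2 * j), coord_of_sub hp, c_le (2 * i)]
  · exact ⟨2 * i, 2 * j + 1, by omega, P_sum_aux hp hq⟩
  · linarith [hq.2, coord_of_add hp, c_le (2 * i + 1)]
  · linarith [hq.2, coord_of_add hp, c_le (2 * i + 1)]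
  · rw [add_comm p q]
    exact ⟨2 * j, 2 * i + 1, by omega, P_sum_aux hq hp⟩
  · linarith [coord_of_add hq, c_le (2 * j + 1), coord_of_add hp, c_le (2 * i + 1)]

/-- No orientation meets a cut of each kind. -/
lemma not_both (R : E ≃ₗᵢ[ℝ] E) {p q : E} (hp : p ∈ P) (hq : q ∈ P) {n m : ℕ} (hnm : n ≠ m)
    (h1 : 1 - s n < ⟪v n, R p⟫) (h2 : 1 - s m < ⟪-v m, R q⟫) : False := by
  have hn := c_pos n
  have hm := c_pos m
  have a1 : ‖R p - v n‖ < c n / 8 :=
    near_of_inner (by positivity) (norm_v n) (by rw [R.norm_map]; exact hp.1)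
      (by unfold s at h1; linarith [show (c n / 8) ^ 2 / 2 = c n ^ 2 / 128 by ring])
  have a2 : ‖R q - -v m‖ < c m / 8 :=
    near_of_inner (by positivity) (by rw [norm_neg]; exact norm_v m)
      (by rw [R.norm_map]; exact hq.1)
      (by unfold s at h2; linarith [show (c m / 8) ^ 2 / 2 = c m ^ 2 / 128 by ring])
  have a3 : |‖p + q‖ - ‖v n - v m‖| < (c n + c m) / 8 := by
    rw [← R.norm_map (p + q)]
    have h : R (p + q) - (v n - v m) = (R p - v n) + (R q - -v m) := by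
      rw [map_add]; abel
    calc |‖R (p + q)‖ - ‖v n - v m‖| ≤ ‖R (p + q) - (v n - v m)‖ := abs_norm_sub_norm_le _ _
      _ ≤ ‖R p - v n‖ + ‖R q - -v m‖ := by rw [h]; exact norm_add_le _ _
      _ < (c n + c m) / 8 := by linarith
  have h : v n - v m = (v n - e0) - (v m - e0) := by abel
  have a4 : |c n / 4 - c m / 4| ≤ ‖v n - v m‖ := by
    rw [h, ← norm_v_sub, ← norm_v_sub]; exact abs_norm_sub_norm_le _ _
  have a5 : ‖v n - v m‖ ≤ c n / 4 + c m / 4 := by
    rw [h, ← norm_v_sub, ← norm_v_sub]; exact norm_sub_le _ _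
  have a6 : ‖p + q‖ < 1 / 20 := by
    have := le_abs_self (‖p + q‖ - ‖v n - v m‖)
    have := c_le n
    have := c_le m
    linarith
  obtain ⟨i, j, hij, b1, b2⟩ := P_sum hp hq a6
  have := gap hij hnm b1 b2 a4 a5
  linarith

/-- Every orientation fits at height zero or at height one. -/
lemma kakeya (R : E ≃ₗᵢ[ℝ] E) : (∀ p ∈ P, R p + 0 ∈ K) ∨ (∀ p ∈ P, R p + e2 ∈ K) := by
  by_cases hA : ∀ q ∈ P, ∀ k, ⟪-v (2 * k + 1), R q⟫ ≤ 1 - s (2 * k + 1)
  · left
    intro p hp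
    have hn : ‖R p‖ ≤ 1 := by rw [R.norm_map]; exact hp.1
    rw [add_zero]
    refine ⟨by linarith, ?_⟩
    rintro q (rfl | rfl | rfl | rfl | ⟨k, rfl⟩ | ⟨k, rfl⟩)
    · exact inner_le_one norm_g1 hn
    · exact inner_le_one norm_g2 hn
    · exact inner_le_one norm_g3 hn
    · exact inner_le_one norm_g4 hn
    · exact inner_le_one (norm_v _) hn
    · exact hA p hp k
  · right
    push Not at hA
    obtain ⟨q, hq, k, hk⟩ := hA
    intro p hp
    have hn : ‖R p‖ ≤ 1 := by rw [R.norm_map]; exact hp.1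
    refine ⟨?_, ?_⟩
    · have := norm_add_le (R p) e2
      rw [norm_e2] at this
      linarith
    · rintro q (rfl | rfl | rfl | rfl | ⟨l, rfl⟩ | ⟨l, rfl⟩)
      · have := inner_le_one norm_g1 hn
        have h0 : ⟪g1, e2⟫ = 0 := by rw [inner_coord]; simp [g1, e2]
        simp only [inner_add_right, h0]; linarith
      · have := inner_le_one norm_g2 hn
        have h0 : ⟪g2, e2⟫ = 0 := by rw [inner_coord]; simp [g2, e2]
        simp only [inner_add_right, h0]; linarith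
      · have := inner_le_one norm_g3 hn
        have h0 : ⟪g3, e2⟫ = 0 := by rw [inner_coord]; simp [g3, e2]
        simp only [inner_add_right, h0]; linarith
      · have := inner_le_one norm_g4 hn
        have h0 : ⟪g4, e2⟫ = 0 := by rw [inner_coord]; simp [g4, e2]
        simp only [inner_add_right, h0]; linarith
      · have h0 : ⟪v (2 * l), e2⟫ = s (2 * l) := by rw [inner_coord, v2]; simp [e2]
        simp only [inner_add_right, h0]
        by_contra hc
        exact not_both R hp hq (n := 2 * l) (m := 2 * k + 1) (by omega) (by linarith) hk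
      · have h0 : ⟪-v (2 * l + 1), e2⟫ = -s (2 * l + 1) := by
          rw [inner_neg_left, inner_coord, v2]; simp [e2]
        have := inner_le_one (u := -v (2 * l + 1)) (by rw [norm_neg]; exact norm_v _) hn
        simp only [inner_add_right, h0]; linarith

/-- A contact of a unit vector with its own half-space. -/
lemma contact (R : E ≃ₗᵢ[ℝ] E) {x u : E} {b : ℝ} (hx : ∀ p ∈ P, R p + x ∈ K) (hu : ‖u‖ = 1)
    (hH : (u, b) ∈ H) (hP : R.symm u ∈ P) : ⟪u, x⟫ ≤ b - 1 := by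
  have h := (hx _ hP).2 _ hH
  simp only [LinearIsometryEquiv.apply_symm_apply, inner_add_right, real_inner_self_eq_norm_sq,
    hu] at h
  linarith

lemma symm_coord (R : E ≃ₗᵢ[ℝ] E) {u : E} (hu : ‖u‖ = 1) (hw : ‖R e0 - e0‖ ≤ 1 / 20) :
    |R.symm u 0 - u 0| ≤ 1 / 20 := by
  have h1 : R.symm u 0 = ⟪u, R e0⟫ := by
    rw [← R.symm.inner_map_map, R.symm_apply_apply, inner_coord]; simp [e0]
  have h2 : u 0 = ⟪u, e0⟫ := by rw [inner_coord]; simp [e0]
  rw [h1, h2, ← inner_sub_right]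
  have := abs_real_inner_le_norm u (R e0 - e0)
  rw [hu] at this
  linarith

lemma w_near (R : E ≃ₗᵢ[ℝ] E) {n : ℕ} (h : ‖R e0 - v n‖ = c n) : ‖R e0 - e0‖ ≤ 1 / 20 := by
  have h1 : R e0 - e0 = (R e0 - v n) + (v n - e0) := by abel
  have h2 := norm_add_le (R e0 - v n) (v n - e0)
  rw [← h1, h, norm_v_sub] at h2
  have := c_le n
  linarith

lemma force_even (R : E ≃ₗᵢ[ℝ] E) {x : E} (hx : ∀ p ∈ P, R p + x ∈ K) {k : ℕ}
    (h : ‖R e0 - v (2 * k)‖ = c (2 * k)) : x 2 ≤ 0 := by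
  have hw := w_near R h
  have a1 : ⟪g1, x⟫ ≤ 1 - 1 := by
    refine contact R hx norm_g1 (Or.inl rfl) ⟨by rw [R.symm.norm_map, norm_g1], Or.inl ?_⟩
    have h1 := abs_le.1 (symm_coord R norm_g1 hw)
    have h2 : g1 0 = -(3 / 5) := by simp [g1]
    rw [h2] at h1
    constructor <;> linarith [h1.1, h1.2]
  have a2 : ⟪g2, x⟫ ≤ 1 - 1 := by
    refine contact R hx norm_g2 (Or.inr (Or.inl rfl))
      ⟨by rw [R.symm.norm_map, norm_g2], Or.inl ?_⟩
    have h1 := abs_le.1 (symm_coord R norm_g2 hw)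
    have h2 : g2 0 = -(3 / 5) := by simp [g2]
    rw [h2] at h1
    constructor <;> linarith [h1.1, h1.2]
  have a3 : ⟪v (2 * k), x⟫ ≤ 1 - 1 := by
    refine contact R hx (norm_v _) (Or.inr (Or.inr (Or.inr (Or.inr (Or.inl ⟨k, rfl⟩)))))
      ⟨by rw [R.symm.norm_map, norm_v], Or.inr (Or.inr (Or.inl ⟨k, ?_⟩))⟩
    rw [← R.norm_map, map_sub, R.apply_symm_apply, norm_sub_rev, h]
  rw [inner_coord] at a1 a2 a3
  have b0 : g1 0 = -(3 / 5) := by simp [g1]
  have b1 : g1 1 = -(4 / 5) := by simp [g1]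
  have b2 : g1 2 = 0 := by simp [g1]
  have c0 : g2 0 = -(3 / 5) := by simp [g2]
  have c1 : g2 1 = 4 / 5 := by simp [g2]
  have c2 : g2 2 = 0 := by simp [g2]
  rw [b0, b1, b2] at a1
  rw [c0, c1, c2] at a2
  rw [v2] at a3
  have d0 := v0_ge (2 * k)
  have d1 := v1_le (2 * k)
  have d2 := v1_nonneg (2 * k)
  have d3 := s_pos (2 * k)
  have x0 : 0 ≤ x 0 := by linarith
  have x1 : -x 0 ≤ x 1 := by linarith
  have e1 : 0 ≤ v (2 * k) 0 * x 0 + v (2 * k) 1 * x 1 := by nlinarith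
  by_contra hc
  have : 0 < s (2 * k) * x 2 := mul_pos d3 (by linarith)
  linarith

lemma force_odd (R : E ≃ₗᵢ[ℝ] E) {x : E} (hx : ∀ p ∈ P, R p + x ∈ K) {k : ℕ}
    (h : ‖R e0 - v (2 * k + 1)‖ = c (2 * k + 1)) : 1 ≤ x 2 := by
  have hw := w_near R h
  have a1 : ⟪g3, x⟫ ≤ 1 - 1 := by
    refine contact R hx norm_g3 (Or.inr (Or.inr (Or.inl rfl)))
      ⟨by rw [R.symm.norm_map, norm_g3], Or.inr (Or.inl ?_)⟩
    have h1 := abs_le.1 (symm_coord R norm_g3 hw)
    have h2 : g3 0 = 4 / 5 := by simp [g3]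
    rw [h2] at h1
    constructor <;> linarith [h1.1, h1.2]
  have a2 : ⟪g4, x⟫ ≤ 1 - 1 := by
    refine contact R hx norm_g4 (Or.inr (Or.inr (Or.inr (Or.inl rfl))))
      ⟨by rw [R.symm.norm_map, norm_g4], Or.inr (Or.inl ?_)⟩
    have h1 := abs_le.1 (symm_coord R norm_g4 hw)
    have h2 : g4 0 = 4 / 5 := by simp [g4]
    rw [h2] at h1
    constructor <;> linarith [h1.1, h1.2]
  have a3 : ⟪-v (2 * k + 1), x⟫ ≤ 1 - s (2 * k + 1) - 1 := by
    refine contact R hx (by rw [norm_neg, norm_v])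
      (Or.inr (Or.inr (Or.inr (Or.inr (Or.inr ⟨k, rfl⟩)))))
      ⟨by rw [R.symm.norm_map, norm_neg, norm_v], Or.inr (Or.inr (Or.inr ⟨k, ?_⟩))⟩
    rw [← R.norm_map, map_add, R.apply_symm_apply, add_comm, ← sub_eq_add_neg, h]
  rw [inner_neg_left] at a3
  rw [inner_coord] at a1 a2 a3
  have b0 : g3 0 = 4 / 5 := by simp [g3]
  have b1 : g3 1 = 3 / 5 := by simp [g3]
  have b2 : g3 2 = 0 := by simp [g3]
  have c0 : g4 0 = 4 / 5 := by simp [g4]
  have c1 : g4 1 = -(3 / 5) := by simp [g4]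
  have c2 : g4 2 = 0 := by simp [g4]
  rw [b0, b1, b2] at a1
  rw [c0, c1, c2] at a2
  rw [v2] at a3
  have d0 := v0_ge (2 * k + 1)
  have d1 := v1_le (2 * k + 1)
  have d2 := v1_nonneg (2 * k + 1)
  have d3 := s_pos (2 * k + 1)
  have x0 : x 0 ≤ 0 := by linarith
  have x1 : x 1 ≤ -(2 * x 0) := by linarith
  have e1 : v (2 * k + 1) 0 * x 0 + v (2 * k + 1) 1 * x 1 ≤ 0 := by nlinarith
  by_contra hc
  have : 0 < s (2 * k + 1) * (1 - x 2) := mul_pos d3 (by linarith)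
  nlinarith

/-- The sine-curve argument. -/
lemma no_path (w : ℝ → E) (h : ℝ → ℝ) (hw : Continuous w) (hh : Continuous h) (h0 : w 0 = e0)
    (he : ∀ t k, ‖w t - v (2 * k)‖ = c (2 * k) → h t ≤ 0)
    (ho : ∀ t k, ‖w t - v (2 * k + 1)‖ = c (2 * k + 1) → 1 ≤ h t) (t : ℝ) : w t = e0 := by
  have hcl : IsClosed {t | w t = e0} := isClosed_eq hw continuous_const
  have hop : IsOpen {t | w t = e0} := by
    rw [Metric.isOpen_iff]
    intro t0 ht0
    obtain ⟨η, hη, hb⟩ := Metric.continuous_iff.1 hh t0 (1 / 2) (by norm_num)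
    refine ⟨η, hη, fun t1 ht1 => ?_⟩
    by_contra hne
    have hpos : 0 < ‖w t1 - e0‖ := norm_pos_iff.2 (sub_ne_zero.2 hne)
    obtain ⟨k, hk⟩ := exists_pow_lt_of_lt_one hpos (show (1 : ℝ) / 16 < 1 by norm_num)
    have key : ∀ n, k ≤ n → ∃ t ∈ Metric.ball t0 η, ‖w t - v n‖ = c n := by
      intro n hn
      have hc : ContinuousOn (fun t => ‖w t - v n‖) (Metric.ball t0 η) := by fun_prop
      have hiv := (convex_ball t0 η).isPreconnected.intermediate_value
        (Metric.mem_ball_self hη) ht1 hc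
      apply hiv
      have hp := c_pos n
      constructor
      · show ‖w t0 - v n‖ ≤ c n
        rw [show w t0 = e0 from ht0, norm_sub_rev, norm_v_sub]
        linarith
      · show c n ≤ ‖w t1 - v n‖
        have h1 : w t1 - e0 = (w t1 - v n) + (v n - e0) := by abel
        have h2 := norm_add_le (w t1 - v n) (v n - e0)
        rw [← h1, norm_v_sub] at h2
        have h3 := c_anti hn
        have h4 : c k = (1 / 16) ^ k / 32 := rfl
        have h5 := c_pos k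
        linarith
    obtain ⟨a, ha, ha'⟩ := key (2 * k) (by omega)
    obtain ⟨b, hb', hb''⟩ := key (2 * k + 1) (by omega)
    have h1 := he a k ha'
    have h2 := ho b k hb''
    have h3 := hb a ha
    have h4 := hb b hb'
    rw [Real.dist_eq, abs_lt] at h3 h4
    linarith [h3.1, h4.2]
  have := IsClopen.eq_univ (⟨hcl, hop⟩ : IsClopen {t | w t = e0}) ⟨0, h0⟩
  have ht : t ∈ {t | w t = e0} := by rw [this]; trivial
  exact ht

/-- The body. -/
def S : Set E := closure (convexHull ℝ P)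

lemma P_sub_S : P ⊆ S := (subset_convexHull ℝ P).trans subset_closure

lemma S_convex : Convex ℝ S := (convex_convexHull ℝ P).closure

lemma S_sub {C : Set E} (hC : IsClosed C) (hC' : Convex ℝ C) (h : P ⊆ C) : S ⊆ C :=
  closure_minimal (convexHull_min h hC') hC

lemma S_compact : IsCompact S := by
  refine (isCompact_closedBall (0 : E) 1).of_isClosed_subset isClosed_closure ?_
  exact S_sub Metric.isClosed_closedBall (convex_closedBall _ _) fun p hp => by simpa using hp.1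

lemma S_interior : (interior S).Nonempty := by
  refine ⟨(4 / 5 : ℝ) • e0, ?_⟩
  rw [mem_interior_iff_mem_nhds]
  refine Filter.mem_of_superset (Metric.closedBall_mem_nhds _ (show (0 : ℝ) < 1 / 20 by norm_num))
    (Set.Subset.trans ?_ P_sub_S)
  intro p hp
  rw [mem_closedBall_iff_norm] at hp
  have h1 := abs_le.1 ((abs_coord_le (p - (4 / 5 : ℝ) • e0) 0).trans hp)
  have h2 : (p - (4 / 5 : ℝ) • e0) 0 = p 0 - 4 / 5 := by simp [e0]
  rw [h2] at h1
  refine ⟨?_, Or.inr (Or.inl ⟨by linarith [h1.1], by linarith [h1.2]⟩)⟩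
  have h3 := norm_add_le (p - (4 / 5 : ℝ) • e0) ((4 / 5 : ℝ) • e0)
  rw [sub_add_cancel, norm_smul, norm_e0] at h3
  norm_num at h3
  linarith

lemma S_copy (R : E ≃ₗᵢ[ℝ] E) {x : E} (h : ∀ p ∈ P, R p + x ∈ K) : ∀ p ∈ S, R p + x ∈ K := by
  have h1 : IsClosed ((fun p => R p + x) ⁻¹' K) := K_closed.preimage (by fun_prop)
  have h2 : Convex ℝ ((fun p => R p + x) ⁻¹' K) := by
    intro a ha b hb l m hl hm hlm
    have := K_convex ha hb hl hm hlm
    show R (l • a + m • b) + x ∈ K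
    convert this using 1
    rw [map_add, map_smul, map_smul, smul_add, smul_add]
    have : x = l • x + m • x := by rw [← add_smul, hlm, one_smul]
    conv_lhs => rw [this]
    abel
  exact S_sub h1 h2 h

lemma S_kakeya (R : E ≃ₗᵢ[ℝ] E) : ∃ x, ∀ p ∈ S, R p + x ∈ K := by
  rcases kakeya R with h | h
  · exact ⟨_, S_copy R h⟩
  · exact ⟨_, S_copy R h⟩

/-- A rotation matrix as a linear isometry. -/
noncomputable def iso (ρ : Matrix.specialOrthogonalGroup (Fin 3) ℝ) : E ≃ₗᵢ[ℝ] E :=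
  (LinearMap.isometryOfInner (Matrix.toEuclideanLin (ρ : Matrix (Fin 3) (Fin 3) ℝ)) (by
    intro x y
    have h : (ρ : Matrix (Fin 3) (Fin 3) ℝ).transpose * ρ = 1 :=
      (Matrix.mem_orthogonalGroup_iff' _ _).1 (Matrix.mem_specialOrthogonalGroup_iff.1 ρ.2).1
    rw [EuclideanSpace.inner_eq_star_dotProduct, EuclideanSpace.inner_eq_star_dotProduct]
    simp only [Matrix.ofLp_toLpLin, Matrix.toLin'_apply, star_trivial]
    rw [Matrix.dotProduct_mulVec, Matrix.vecMul_mulVec, h, Matrix.vecMul_one])).toLinearIsometryEquiv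
    rfl

lemma iso_apply (ρ : Matrix.specialOrthogonalGroup (Fin 3) ℝ) (x : E) :
    iso ρ x = Matrix.toEuclideanLin (ρ : Matrix (Fin 3) (Fin 3) ℝ) x := rfl

end Pool.Agent.MP_f4a04c_gt.H1
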